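import Mathlib

namespace Pool.Agent.R76.Cake

open Finset

/-- The conclusion of the core theorem: agents `A` share the islands `S`, where of island `j` the
part `[a j, b j]` is available; agent `i` gets at most `k i` intervals, at most one per island,
of total value at least `1`. -/
def Good {α ι : Type*} (F : α → ι → ℝ → ℝ) (b : ι → ℝ) (k : α → ℕ) (A : Finset α) (S : Finset ι)
    (a : ι → ℝ) : Prop :=
  ∃ (K : α → Finset ι) (x y : α → ι → ℝ),
    (∀ i ∈ A, K i ⊆ S ∧ (K i).card ≤ k i ∧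
      (∀ j ∈ K i, a j ≤ x i j ∧ x i j ≤ y i j ∧ y i j ≤ b j) ∧
      1 ≤ ∑ j ∈ K i, (F i j (y i j) - F i j (x i j))) ∧
    ∀ i ∈ A, ∀ i' ∈ A, i ≠ i' → ∀ j ∈ K i, j ∈ K i' → (y i j ≤ x i' j ∨ y i' j ≤ x i j)

/-- The `k` best elements carry at least the average. -/
lemma top {ι : Type*} [DecidableEq ι] (w : ι → ℝ) (k : ℕ) (hk : 1 ≤ k) :
    ∀ (t : ℕ) (K : Finset ι), K.card = k + t →
      ∃ K' ⊆ K, K'.card = k ∧ (k : ℝ) * ∑ j ∈ K, w j ≤ (K.card : ℝ) * ∑ j ∈ K', w j := by
  intro t
  induction t with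
  | zero =>
    intro K hK
    exact ⟨K, Subset.refl _, by simpa using hK, by rw [hK]; simp⟩
  | succ t ih =>
    intro K hK
    have hne : K.Nonempty := by
      rw [← Finset.card_pos]; omega
    obtain ⟨j0, hj0, hmin⟩ := Finset.exists_min_image K w hne
    have hcard : (K.erase j0).card = k + t := by
      rw [Finset.card_erase_of_mem hj0]; omega
    obtain ⟨K', hK', hc, hle⟩ := ih (K.erase j0) hcard
    refine ⟨K', hK'.trans (Finset.erase_subset _ _), hc, ?_⟩
    have hsum : ∑ j ∈ K.erase j0, w j = ∑ j ∈ K, w j - w j0 := by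
      rw [← Finset.add_sum_erase K w hj0]; ring
    have hmul : (K.card : ℝ) * w j0 ≤ ∑ j ∈ K, w j := by
      have := Finset.card_nsmul_le_sum K w (w j0) (fun j hj => hmin j hj)
      simpa [nsmul_eq_mul] using this
    rw [hcard, hsum] at hle
    rw [hK] at hmul ⊢
    push_cast at *
    have hk' : (1 : ℝ) ≤ k := by exact_mod_cast hk
    have ht : (0 : ℝ) ≤ t := Nat.cast_nonneg t
    set s := ∑ j ∈ K, w j
    set s' := ∑ j ∈ K', w j
    -- (k + t + 1) * (s - w) ≥ (k + t) * s
    have h1 : ((k : ℝ) + t) * s ≤ (k + (t + 1)) * (s - w j0) := by nlinarith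
    have h2 : (k : ℝ) * (((k : ℝ) + t) * s) ≤ (k + (t + 1)) * (((k : ℝ) + t) * s') := by
      calc (k : ℝ) * (((k : ℝ) + t) * s) ≤ k * ((k + (t + 1)) * (s - w j0)) := by
            apply mul_le_mul_of_nonneg_left h1; linarith
        _ = (k + (t + 1)) * (k * (s - w j0)) := by ring
        _ ≤ (k + (t + 1)) * (((k : ℝ) + t) * s') := by
            apply mul_le_mul_of_nonneg_left hle; linarith
    have h3 : ((k : ℝ) + t) * (k * s) ≤ (k + t) * ((k + (t + 1)) * s') := by nlinarith
    exact le_of_mul_le_mul_left h3 (by linarith)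

lemma best {ι : Type*} [DecidableEq ι] (w : ι → ℝ) (K : Finset ι) (k q : ℕ) (hk : 1 ≤ k)
    (hkq : k ≤ q) (hK : K.card ≤ q) (hw : ∀ j ∈ K, 0 ≤ w j)
    (hs : (q : ℝ) ≤ k * ∑ j ∈ K, w j) : ∃ K' ⊆ K, K'.card ≤ k ∧ 1 ≤ ∑ j ∈ K', w j := by
  have hk' : (1 : ℝ) ≤ k := by exact_mod_cast hk
  have hkq' : (k : ℝ) ≤ q := by exact_mod_cast hkq
  rcases le_or_gt K.card k with h | h
  · refine ⟨K, Subset.refl _, h, ?_⟩
    by_contra hcon
    push Not at hcon
    have : (k : ℝ) * ∑ j ∈ K, w j < k * 1 := by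
      apply mul_lt_mul_of_pos_left hcon; linarith
    linarith
  · obtain ⟨K', hK', hc, hle⟩ := top w k hk (K.card - k) K (by omega)
    refine ⟨K', hK', hc.le, ?_⟩
    have hKq : (K.card : ℝ) ≤ q := by exact_mod_cast hK
    have hnn : 0 ≤ ∑ j ∈ K', w j := Finset.sum_nonneg (fun j hj => hw j (hK' hj))
    have h1 : (q : ℝ) * 1 ≤ q * ∑ j ∈ K', w j := by
      calc (q : ℝ) * 1 = q := by ring
        _ ≤ _ := hs
        _ ≤ _ := hle
        _ ≤ _ := mul_le_mul_of_nonneg_right hKq hnn
    exact le_of_mul_le_mul_left h1 (by linarith)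

/-- Walking from `T` to `U`. -/
lemma walk {ι : Type*} [DecidableEq ι] (P Q : Finset ι → Prop)
    (hP : ∀ T T', T' ⊆ T → P T → P T') (hPQ : ∀ T, ¬ Q T → P T) :
    ∀ (n : ℕ) (T U : Finset ι), (U \ T).card = n → T.card < U.card → P T → Q U →
      ∃ (T' : Finset ι) (j : ι), j ∉ T' ∧ T' ⊆ T ∪ U ∧ j ∈ T ∪ U ∧ T.card ≤ T'.card ∧
        T'.card < U.card ∧ P T' ∧ Q (insert j T') := by
  intro n
  induction n using Nat.strong_induction_on with
  | _ n ih =>
  intro T U hn hlt hPT hQU
  have hne : (U \ T).Nonempty := by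
    rw [← Finset.card_pos]
    have := Finset.le_card_sdiff T U
    omega
  obtain ⟨j, hj⟩ := hne
  have hjU : j ∈ U := (Finset.mem_sdiff.mp hj).1
  have hjT : j ∉ T := (Finset.mem_sdiff.mp hj).2
  by_cases hQ : Q (insert j T)
  · exact ⟨T, j, hjT, Finset.subset_union_left, Finset.mem_union_right _ hjU, le_refl _, hlt,
      hPT, hQ⟩
  have hP1 := hPQ _ hQ
  by_cases hc : (insert j T).card < U.card
  · have hsub : U \ insert j T ⊂ U \ T := by
      refine Finset.ssubset_iff_subset_ne.mpr ⟨Finset.sdiff_subset_sdiff (Subset.refl _)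
        (Finset.subset_insert _ _), ?_⟩
      intro h
      rw [← h] at hj
      simp at hj
    obtain ⟨T', j', h1, h2, h3, h4, h5, h6, h7⟩ := ih _ (hn ▸ Finset.card_lt_card hsub)
      (insert j T) U rfl hc hP1 hQU
    have hins : insert j T ∪ U = T ∪ U := by
      ext z; simp only [Finset.mem_union, Finset.mem_insert]
      constructor
      · rintro ((rfl | h) | h)
        · exact Or.inr hjU
        · exact Or.inl h
        · exact Or.inr h
      · rintro (h | h)
        · exact Or.inl (Or.inr h)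
        · exact Or.inr h
    rw [hins] at h2 h3
    refine ⟨T', j', h1, h2, h3, ?_, h5, h6, h7⟩
    rw [Finset.card_insert_of_notMem hjT] at h4
    omega
  · rw [Finset.card_insert_of_notMem hjT] at hc
    by_cases ht : ∃ t ∈ T, t ∉ U
    · obtain ⟨t, htT, htU⟩ := ht
      have htj : t ≠ j := by rintro rfl; exact hjT htT
      set T1 := (insert j T).erase t with hT1
      have hcard1 : T1.card = T.card := by
        rw [hT1, Finset.card_erase_of_mem (Finset.mem_insert_of_mem htT),
          Finset.card_insert_of_notMem hjT]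
        simp
      have hPT1 : P T1 := hP _ _ (Finset.erase_subset _ _) hP1
      have hsub : U \ T1 ⊂ U \ T := by
        refine Finset.ssubset_iff_subset_ne.mpr ⟨?_, ?_⟩
        · intro z hz
          rw [Finset.mem_sdiff] at hz ⊢
          refine ⟨hz.1, fun hzT => hz.2 ?_⟩
          rw [hT1, Finset.mem_erase]
          exact ⟨by rintro rfl; exact htU hz.1, Finset.mem_insert_of_mem hzT⟩
        · intro h
          rw [← h] at hj
          rw [Finset.mem_sdiff] at hj
          apply hj.2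
          rw [hT1, Finset.mem_erase]
          exact ⟨htj.symm, Finset.mem_insert_self _ _⟩
      obtain ⟨T', j', h1, h2, h3, h4, h5, h6, h7⟩ := ih _ (hn ▸ Finset.card_lt_card hsub)
        T1 U rfl (by rw [hcard1]; exact hlt) hPT1 hQU
      have hins : T1 ∪ U ⊆ T ∪ U := by
        intro z hz
        rw [Finset.mem_union] at hz ⊢
        rcases hz with h | h
        · rw [hT1, Finset.mem_erase, Finset.mem_insert] at h
          rcases h.2 with rfl | h'
          · exact Or.inr hjU
          · exact Or.inl h'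
        · exact Or.inr h
      exact ⟨T', j', h1, h2.trans hins, hins h3, by omega, h5, h6, h7⟩
    · push Not at ht
      exfalso
      apply hQ
      have hsub : insert j T ⊆ U := by
        intro z hz
        rcases Finset.mem_insert.mp hz with rfl | h
        · exact hjU
        · exact ht z h
      have heq : insert j T = U := by
        apply Finset.eq_of_subset_of_card_le hsub
        rw [Finset.card_insert_of_notMem hjT]; omega
      rw [heq]; exact hQU

/-- Moving knife. -/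
lemma knife {α : Type*} (A : Finset α) (G : α → ℝ → ℝ)
    (hc : ∀ i, Continuous (G i)) (hm : ∀ i, Monotone (G i)) (θ : α → ℝ) (u v : ℝ) (huv : u ≤ v)
    (h0 : ∀ i ∈ A, G i u ≤ θ i) (h1 : ∃ i ∈ A, θ i ≤ G i v) :
    ∃ i ∈ A, ∃ x, u ≤ x ∧ x ≤ v ∧ G i x = θ i ∧ ∀ i' ∈ A, G i' x ≤ θ i' := by
  classical
  have hz : ∀ i ∈ A.filter (fun i => θ i ≤ G i v), ∃ x, u ≤ x ∧ x ≤ v ∧ G i x = θ i := by
    intro i hi
    rw [Finset.mem_filter] at hi
    have := intermediate_value_Icc huv ((hc i).continuousOn (s := Set.Icc u v))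
    obtain ⟨x, hx, hx2⟩ := this ⟨h0 i hi.1, hi.2⟩
    exact ⟨x, hx.1, hx.2, hx2⟩
  choose! z hz1 hz2 hz3 using hz
  obtain ⟨i1, hi1, hi1'⟩ := h1
  obtain ⟨i, hi, hmin⟩ := Finset.exists_min_image (A.filter (fun i => θ i ≤ G i v)) z
    ⟨i1, Finset.mem_filter.mpr ⟨hi1, hi1'⟩⟩
  refine ⟨i, (Finset.mem_filter.mp hi).1, z i, hz1 i hi, hz2 i hi, hz3 i hi, ?_⟩
  intro i' hi'
  by_cases h : θ i' ≤ G i' v
  · have hm' : i' ∈ A.filter (fun i => θ i ≤ G i v) := Finset.mem_filter.mpr ⟨hi', h⟩
    calc G i' (z i) ≤ G i' (z i') := hm i' (hmin i' hm')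
      _ = θ i' := hz3 i' hm'
  · push Not at h
    exact (hm i' (hz2 i hi)).trans h.le

/-- Balanced grouping of the islands. -/
lemma groups {ι : Type*} [DecidableEq ι] (r : ℕ) : ∀ (N : ℕ) (S : Finset ι),
    r * N ≤ S.card → S.card ≤ (r + 1) * N →
    ∃ G : Fin N → Finset ι, (∀ l, G l ⊆ S ∧ r ≤ (G l).card ∧ (G l).card ≤ r + 1) ∧
      (∀ l l', l ≠ l' → Disjoint (G l) (G l')) ∧ S ⊆ univ.biUnion G := by
  intro N
  induction N with
  | zero =>
    intro S _ h
    have : S = ∅ := by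
      rw [← Finset.card_eq_zero]; omega
    subst this
    exact ⟨fun l => l.elim0, fun l => l.elim0, fun l => l.elim0, by simp⟩
  | succ N ih =>
    intro S h1 h2
    obtain ⟨c, hc1, hc2, hc3, hc4, hc5⟩ : ∃ c, r ≤ c ∧ c ≤ r + 1 ∧ c ≤ S.card ∧
        r * N ≤ S.card - c ∧ S.card - c ≤ (r + 1) * N := by
      have e1 : r * (N + 1) = r * N + r := by ring
      have e2 : (r + 1) * (N + 1) = r * N + N + r + 1 := by ring
      have e3 : (r + 1) * N = r * N + N := by ring
      by_cases h : r * N + (r + 1) ≤ S.card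
      · exact ⟨r + 1, by omega, by omega, by omega, by omega, by omega⟩
      · exact ⟨r, by omega, by omega, by omega, by omega, by omega⟩
    obtain ⟨G0, hG0, hG0c⟩ := Finset.exists_subset_card_eq hc3
    obtain ⟨G, hG1, hG2, hG3⟩ := ih (S \ G0)
      (by rw [Finset.card_sdiff_of_subset hG0, hG0c]; exact hc4)
      (by rw [Finset.card_sdiff_of_subset hG0, hG0c]; exact hc5)
    refine ⟨Fin.cons G0 G, ?_, ?_, ?_⟩
    · intro l
      refine Fin.cases ?_ ?_ l
      · simp only [Fin.cons_zero]; exact ⟨hG0, by omega, by omega⟩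
      · intro l'
        simp only [Fin.cons_succ]
        exact ⟨(hG1 l').1.trans Finset.sdiff_subset, (hG1 l').2⟩
    · intro l l'
      refine Fin.cases ?_ ?_ l
      · refine Fin.cases ?_ ?_ l'
        · intro h; exact absurd rfl h
        · intro l1 _
          simp only [Fin.cons_zero, Fin.cons_succ]
          exact Finset.disjoint_of_subset_right (hG1 l1).1 Finset.disjoint_sdiff
      · intro l1
        refine Fin.cases ?_ ?_ l'
        · intro _
          simp only [Fin.cons_zero, Fin.cons_succ]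
          exact (Finset.disjoint_of_subset_right (hG1 l1).1 Finset.disjoint_sdiff).symm
        · intro l2 h
          simp only [Fin.cons_succ]
          exact hG2 l1 l2 (fun e => h (by rw [e]))
    · intro z hz
      rw [Finset.mem_biUnion]
      by_cases hz0 : z ∈ G0
      · exact ⟨0, Finset.mem_univ _, by simpa using hz0⟩
      · have := hG3 (Finset.mem_sdiff.mpr ⟨hz, hz0⟩)
        rw [Finset.mem_biUnion] at this
        obtain ⟨l, _, hl⟩ := this
        exact ⟨l.succ, Finset.mem_univ _, by simpa using hl⟩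

/-- Gluing an allocation for some agents with one for the remaining agents. -/
lemma glue {α ι : Type*} [DecidableEq α] [DecidableEq ι] (F : α → ι → ℝ → ℝ) (b : ι → ℝ)
    (k : α → ℕ) (A A2 : Finset α) (S S2 : Finset ι) (a a2 : ι → ℝ)
    (hS2 : S2 ⊆ S) (ha2 : ∀ j ∈ S2, a j ≤ a2 j)
    (K : α → Finset ι) (x y : α → ι → ℝ)
    (h1 : ∀ i ∈ A, i ∉ A2 → K i ⊆ S ∧ (K i).card ≤ k i ∧
      (∀ j ∈ K i, a j ≤ x i j ∧ x i j ≤ y i j ∧ y i j ≤ b j) ∧
      1 ≤ ∑ j ∈ K i, (F i j (y i j) - F i j (x i j)))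
    (h2 : ∀ i ∈ A, i ∉ A2 → ∀ i' ∈ A, i' ∉ A2 → i ≠ i' → ∀ j ∈ K i, j ∈ K i' →
      (y i j ≤ x i' j ∨ y i' j ≤ x i j))
    (h3 : ∀ i ∈ A, i ∉ A2 → ∀ j ∈ K i, j ∈ S2 → y i j ≤ a2 j)
    (hG : Good F b k A2 S2 a2) : Good F b k A S a := by
  obtain ⟨K2, x2, y2, g1, g2⟩ := hG
  refine ⟨fun i => if i ∈ A2 then K2 i else K i, fun i => if i ∈ A2 then x2 i else x i,
    fun i => if i ∈ A2 then y2 i else y i, ?_, ?_⟩
  · intro i hi
    by_cases h : i ∈ A2
    · simp only [h, if_true]
      obtain ⟨e1, e2, e3, e4⟩ := g1 i h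
      refine ⟨e1.trans hS2, e2, ?_, e4⟩
      intro j hj
      exact ⟨(ha2 j (e1 hj)).trans (e3 j hj).1, (e3 j hj).2⟩
    · simp only [h, if_false]
      exact h1 i hi h
  · intro i hi i' hi' hne j hj hj'
    by_cases h : i ∈ A2 <;> by_cases h' : i' ∈ A2
    · simp only [h, h', if_true] at hj hj' ⊢
      exact g2 i h i' h' hne j hj hj'
    · simp only [h, h', if_true, if_false] at hj hj' ⊢
      right
      exact (h3 i' hi' h' j hj' ((g1 i h).1 hj)).trans ((g1 i h).2.2.1 j hj).1
    · simp only [h, h', if_true, if_false] at hj hj' ⊢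
      left
      exact (h3 i hi h j hj ((g1 i' h').1 hj')).trans ((g1 i' h').2.2.1 j hj').1
    · simp only [h, h', if_false] at hj hj' ⊢
      exact h2 i hi h i' hi' h' hne j hj hj'

end Pool.Agent.R76.Cake
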