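import Pool.Agent.R76.Cake.Core

namespace Pool.Agent.R76.Cake

open Finset

section
variable {α ι : Type*}

/-- value of the (whole available parts of the) islands in `T` -/
noncomputable def V (F : α → ι → ℝ → ℝ) (a b : ι → ℝ) (i : α) (T : Finset ι) : ℝ :=
  ∑ j ∈ T, (F i j (b j) - F i j (a j))

/-- threshold -/
noncomputable def th (k : α → ℕ) (q : ℕ) (i : α) : ℝ := if k i ≤ q then (q : ℝ) / k i else 1

lemma th_one (k : α → ℕ) (q : ℕ) (i : α) (hk : 1 ≤ k i) : 1 ≤ th k q i := by
  unfold th
  split_ifs with h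
  · have h1 : (1 : ℝ) ≤ k i := by exact_mod_cast hk
    rw [le_div_iff₀ (by linarith)]
    have : (k i : ℝ) ≤ q := by exact_mod_cast h
    linarith
  · exact le_refl _

lemma th_low (k : α → ℕ) (q : ℕ) (i : α) (hk : 1 ≤ k i) (h : k i ≤ q) :
    (k i : ℝ) * th k q i = q := by
  unfold th
  rw [if_pos h]
  have h1 : (k i : ℝ) ≠ 0 := by
    have : (1 : ℝ) ≤ k i := by exact_mod_cast hk
    linarith
  field_simp

lemma th_high (k : α → ℕ) (q : ℕ) (i : α) (h : ¬ k i ≤ q) : th k q i = 1 := by
  unfold th
  rw [if_neg h]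

/-- Arithmetic of the induction step. `N` agents before, `N'` after, `p` agents leave. -/
lemma step_arith (q N p m m' kk : ℕ) (v v' θ : ℝ) (hk : 1 ≤ kk)
    (hpN : p ≤ N)
    (hlow : kk ≤ q → (kk : ℝ) * θ = q) (hhigh : ¬ kk ≤ q → θ = 1)
    (h1 : (N : ℝ) ≤ v) (h2 : (m : ℝ) + N - 1 ≤ kk * v) (hv : v - p * θ ≤ v')
    (hM : q * N + 1 ≤ m + N)
    (hm' : m' + (N - p) + q * p ≤ m + N) (hm'' : m' + (N - p) ≤ (q + 1) * (N - p) + 1) :
    ((N - p : ℕ) : ℝ) ≤ v' ∧ (m' : ℝ) + ((N - p : ℕ) : ℝ) - 1 ≤ kk * v' := by
  obtain ⟨n', hn'⟩ := Nat.exists_eq_add_of_le hpN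
  have hNp : N - p = n' := by omega
  rw [hNp] at hm' hm'' ⊢
  have hNr : (N : ℝ) = p + n' := by rw [hn']; push_cast; ring
  have hk1 : (1 : ℝ) ≤ kk := by exact_mod_cast hk
  have hMr : (q : ℝ) * N + 1 ≤ m + N := by exact_mod_cast hM
  have hm'r : (m' : ℝ) + n' + q * p ≤ m + N := by exact_mod_cast hm'
  have hm''r : (m' : ℝ) + n' ≤ (q + 1) * n' + 1 := by exact_mod_cast hm''
  have hp0 : (0 : ℝ) ≤ p := Nat.cast_nonneg p
  have hn0 : (0 : ℝ) ≤ n' := Nat.cast_nonneg n'
  by_cases hkq : kk ≤ q
  · have e1 := hlow hkq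
    have hkqr : (kk : ℝ) ≤ q := by exact_mod_cast hkq
    have e2 : (kk : ℝ) * v - p * q ≤ kk * v' := by
      have := mul_le_mul_of_nonneg_left hv (by linarith : (0 : ℝ) ≤ kk)
      nlinarith
    have e3 : (m : ℝ) + N - 1 - p * q ≤ kk * v' := by linarith
    refine ⟨?_, by linarith⟩
    have e4 : (kk : ℝ) * n' ≤ kk * v' := by
      calc (kk : ℝ) * n' ≤ q * n' := mul_le_mul_of_nonneg_right hkqr hn0
        _ ≤ (m : ℝ) + N - 1 - p * q := by
          have : (q : ℝ) * N = q * p + q * n' := by rw [hNr]; ring
          linarith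
        _ ≤ _ := e3
    exact le_of_mul_le_mul_left e4 (by linarith)
  · have e1 := hhigh hkq
    rw [e1] at hv
    have e2 : (n' : ℝ) ≤ v' := by linarith
    refine ⟨e2, ?_⟩
    have hkqr : (q : ℝ) + 1 ≤ kk := by exact_mod_cast (not_le.mp hkq)
    calc (m' : ℝ) + n' - 1 ≤ (q + 1) * n' := by linarith
      _ ≤ kk * n' := mul_le_mul_of_nonneg_right hkqr hn0
      _ ≤ kk * v' := mul_le_mul_of_nonneg_left e2 (by linarith)

theorem main [DecidableEq α] [DecidableEq ι] (F : α → ι → ℝ → ℝ) (b : ι → ℝ) (k : α → ℕ)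
    (hcont : ∀ i j, Continuous (F i j)) (hmono : ∀ i j, Monotone (F i j)) :
    ∀ (N : ℕ) (A : Finset α), A.card = N → ∀ (S : Finset ι) (a : ι → ℝ),
      (0 < N → 0 < S.card) → (∀ j ∈ S, a j ≤ b j) → (∀ i ∈ A, 1 ≤ k i) →
      (∀ i ∈ A, (N : ℝ) ≤ V F a b i S) →
      (∀ i ∈ A, (S.card : ℝ) + N - 1 ≤ k i * V F a b i S) →
      Good F b k A S a := by
  intro N
  induction N using Nat.strong_induction_on with
  | _ N ih =>
  intro A hA S a hS hab hk h1 h2
  rcases Nat.eq_zero_or_pos N with hN | hN
  · subst hN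
    rw [Finset.card_eq_zero] at hA
    subst hA
    exact ⟨fun _ => ∅, fun _ _ => 0, fun _ _ => 0, by simp, by simp⟩
  have hm := hS hN
  obtain ⟨r, hr1, hr2⟩ : ∃ r, (r + 1) * N + 1 ≤ S.card + N ∧ S.card + N ≤ (r + 1 + 1) * N := by
    have hdm := Nat.div_add_mod (S.card + N - 1) N
    have hlt := Nat.mod_lt (S.card + N - 1) hN
    have hq : 1 ≤ (S.card + N - 1) / N := by
      rw [Nat.le_div_iff_mul_le hN]; omega
    obtain ⟨r, hr⟩ := Nat.exists_eq_add_of_le hq
    refine ⟨r, ?_, ?_⟩
    · have : (r + 1) * N = N * ((S.card + N - 1) / N) := by rw [hr]; ring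
      omega
    · have : (r + 1 + 1) * N = N * ((S.card + N - 1) / N) + N := by rw [hr]; ring
      omega
  have hrN : (r + 1) * N = r * N + N := by ring
  have hr2N : (r + 1 + 1) * N = r * N + N + N := by ring
  have hrm : r + 1 ≤ S.card := by
    have : r * 1 ≤ r * N := Nat.mul_le_mul_left r hN
    omega
  -- values
  have hVmono : ∀ i, ∀ T T' : Finset ι, T ⊆ T' → T' ⊆ S → V F a b i T ≤ V F a b i T' := by
    intro i T T' hT hT'
    unfold V
    apply Finset.sum_le_sum_of_subset_of_nonneg hT
    intro j hj _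
    have := hmono i j (hab j (hT' hj))
    linarith
  set θ : α → ℝ := th k (r + 1) with hθ
  have hθ1 : ∀ i ∈ A, 1 ≤ θ i := fun i hi => th_one k (r + 1) i (hk i hi)
  by_cases hcase : ∃ T ⊆ S, T.card = r ∧ ∀ i ∈ A, V F a b i T ≤ θ i
  · -- Case 1
    obtain ⟨T, hTS, hTc, hT⟩ := hcase
    have hU : ∃ U ⊆ S, r + 1 ≤ U.card ∧ (∃ i ∈ A, θ i ≤ V F a b i U) ∧
        ((∃ i ∈ A, k i ≤ r + 1) → U.card = r + 1) ∧ U.card ≤ r + 1 + 1 := by
      by_cases hL : ∃ i ∈ A, k i ≤ r + 1
      · obtain ⟨i0, hi0, hki0⟩ := hL
        obtain ⟨U, hUS, hUc, hUle⟩ := top (fun j => F i0 j (b j) - F i0 j (a j)) (r + 1)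
          (by omega) (S.card - (r + 1)) S (by omega)
        refine ⟨U, hUS, hUc.ge, ⟨i0, hi0, ?_⟩, fun _ => hUc, by omega⟩
        have e1 := h2 i0 hi0
        have e2 := th_low k (r + 1) i0 (hk i0 hi0) hki0
        have hk0 : (1 : ℝ) ≤ k i0 := by exact_mod_cast hk i0 hi0
        have hm' : (1 : ℝ) ≤ S.card := by exact_mod_cast hm
        have hN' : (1 : ℝ) ≤ N := by exact_mod_cast hN
        change ((r + 1 : ℕ) : ℝ) * V F a b i0 S ≤ S.card * V F a b i0 U at hUle
        have hq0 : (0 : ℝ) ≤ ((r + 1 : ℕ) : ℝ) := Nat.cast_nonneg _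
        have e3 : ((r + 1 : ℕ) : ℝ) * S.card ≤ k i0 * (S.card * V F a b i0 U) := by
          calc ((r + 1 : ℕ) : ℝ) * S.card ≤ ((r + 1 : ℕ) : ℝ) * (k i0 * V F a b i0 S) := by
                apply mul_le_mul_of_nonneg_left _ hq0; linarith
            _ = k i0 * (((r + 1 : ℕ) : ℝ) * V F a b i0 S) := by ring
            _ ≤ _ := mul_le_mul_of_nonneg_left hUle (by linarith)
        rw [← e2] at e3
        have e4 : ((k i0 : ℝ) * S.card) * θ i0 ≤ ((k i0 : ℝ) * S.card) * V F a b i0 U := by
          calc ((k i0 : ℝ) * S.card) * θ i0 = ↑(k i0) * th k (r + 1) i0 * S.card := by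
                rw [hθ]; ring
            _ ≤ _ := e3
            _ = _ := by ring
        exact le_of_mul_le_mul_left e4 (by positivity)
      · have hApos : A.Nonempty := by rw [← Finset.card_pos]; omega
        obtain ⟨i0, hi0⟩ := hApos
        have hki0 : ¬ k i0 ≤ r + 1 := fun h => hL ⟨i0, hi0, h⟩
        have e1 := h1 i0 hi0
        have hN' : (1 : ℝ) ≤ N := by exact_mod_cast hN
        have hθ0 : θ i0 = 1 := th_high k (r + 1) i0 hki0
        rcases le_or_gt (r + 1 + 1) S.card with hc | hc
        · obtain ⟨U, hUS, hUc, hUle⟩ := top (fun j => F i0 j (b j) - F i0 j (a j)) (r + 1 + 1)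
            (by omega) (S.card - (r + 1 + 1)) S (by omega)
          refine ⟨U, hUS, by omega, ⟨i0, hi0, ?_⟩, fun h => absurd h hL, by omega⟩
          change ((r + 1 + 1 : ℕ) : ℝ) * V F a b i0 S ≤ S.card * V F a b i0 U at hUle
          rw [hθ0]
          have hVU : 0 ≤ V F a b i0 U := by
            have := hVmono i0 ∅ U (Finset.empty_subset _) hUS
            simpa [V] using this
          have hmq : (S.card : ℝ) ≤ ((r + 1 + 1 : ℕ) : ℝ) * N := by
            have : S.card ≤ (r + 1 + 1) * N := by omega
            exact_mod_cast this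
          have hq0 : (0 : ℝ) < ((r + 1 + 1 : ℕ) : ℝ) := by positivity
          have e5 : (((r + 1 + 1 : ℕ) : ℝ) * N) * 1 ≤ (((r + 1 + 1 : ℕ) : ℝ) * N) * V F a b i0 U := by
            calc (((r + 1 + 1 : ℕ) : ℝ) * N) * 1 ≤ ((r + 1 + 1 : ℕ) : ℝ) * V F a b i0 S := by
                  rw [mul_one]; exact mul_le_mul_of_nonneg_left e1 hq0.le
              _ ≤ _ := hUle
              _ ≤ _ := mul_le_mul_of_nonneg_right hmq hVU
          exact le_of_mul_le_mul_left e5 (by positivity)
        · refine ⟨S, Subset.refl _, hrm, ⟨i0, hi0, by rw [hθ0]; linarith⟩,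
            fun h => absurd h hL, by omega⟩
    obtain ⟨U, hUS, hUc1, hUi, hUc2, hUc3⟩ := hU
    have hTU : T ∪ U ⊆ S := Finset.union_subset hTS hUS
    obtain ⟨T', j, hjT', hT'sub, hjsub, hT'c1, hT'c2, hPT', hQT'⟩ := walk
      (fun T => ∀ i ∈ A, V F a b i (T ∩ S) ≤ θ i)
      (fun T => ∃ i ∈ A, θ i ≤ V F a b i (T ∩ S))
      (by
        intro T1 T2 h12 hP i hi
        exact (hVmono i _ _ (Finset.inter_subset_inter_right h12) Finset.inter_subset_right).trans
          (hP i hi))
      (by
        intro T1 hQ i hi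
        by_contra hcon
        push Not at hcon
        exact hQ ⟨i, hi, hcon.le⟩) (U \ T).card T U rfl (by omega)
      (by
        intro i hi
        rw [Finset.inter_eq_left.mpr hTS]
        exact hT i hi)
      (by
        obtain ⟨i, hi, h⟩ := hUi
        refine ⟨i, hi, ?_⟩
        rw [Finset.inter_eq_left.mpr hUS]
        exact h)
    have hT'S : T' ⊆ S := hT'sub.trans hTU
    have hjS : j ∈ S := hTU hjsub
    have hinsS : insert j T' ⊆ S := Finset.insert_subset hjS hT'S
    simp only [Finset.inter_eq_left.mpr hT'S, Finset.inter_eq_left.mpr hinsS] at hPT' hQT'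
    have hVins : ∀ i, V F a b i (insert j T') = V F a b i T' + (F i j (b j) - F i j (a j)) := by
      intro i
      unfold V
      rw [Finset.sum_insert hjT']; ring
    obtain ⟨i0, hi0, x, hx1, hx2, hGx, hGall⟩ := knife A
      (fun i x => V F a b i T' + (F i j x - F i j (a j)))
      (fun i => continuous_const.add ((hcont i j).sub continuous_const))
      (by
        intro i x y hxy
        have := hmono i j hxy
        simp only
        linarith) θ (a j) (b j) (hab j hjS)
      (by
        intro i hi
        have := hPT' i hi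
        simp only [sub_self, add_zero]
        exact this)
      (by
        obtain ⟨i, hi, h⟩ := hQT'
        exact ⟨i, hi, by rw [hVins] at h; exact h⟩)
    set yy : ι → ℝ := fun l => if l = j then x else b l with hyy
    have hyyj : yy j = x := by simp [hyy]
    have hyyo : ∀ l, l ≠ j → yy l = b l := by intro l hl; simp [hyy, hl]
    have hay : ∀ l ∈ insert j T', a l ≤ yy l ∧ yy l ≤ b l := by
      intro l hl
      by_cases h : l = j
      · subst h; rw [hyyj]; exact ⟨hx1, hx2⟩
      · rw [hyyo l h]; exact ⟨hab l (hinsS hl), le_refl _⟩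
    have hsum : ∑ l ∈ insert j T', (F i0 l (yy l) - F i0 l (a l)) = θ i0 := by
      rw [Finset.sum_insert hjT', hyyj, ← hGx]
      unfold V
      rw [add_comm]
      congr 1
      apply Finset.sum_congr rfl
      intro l hl
      rw [hyyo l (by rintro rfl; exact hjT' hl)]
    have hKs : ∃ Ks ⊆ insert j T', Ks.card ≤ k i0 ∧
        1 ≤ ∑ l ∈ Ks, (F i0 l (yy l) - F i0 l (a l)) := by
      by_cases hlow : k i0 ≤ r + 1
      · have hUr := hUc2 ⟨i0, hi0, hlow⟩
        apply best (fun l => F i0 l (yy l) - F i0 l (a l)) (insert j T') (k i0) (r + 1)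
          (hk i0 hi0) hlow
        · rw [Finset.card_insert_of_notMem hjT']; omega
        · intro l hl
          have := hmono i0 l (hay l hl).1
          linarith
        · rw [hsum]
          have := th_low k (r + 1) i0 (hk i0 hi0) hlow
          exact this.ge
      · refine ⟨insert j T', Subset.refl _, ?_, ?_⟩
        · rw [Finset.card_insert_of_notMem hjT']; omega
        · rw [hsum]
          exact (th_high k (r + 1) i0 hlow).ge
    obtain ⟨Ks, hKs1, hKs2, hKs3⟩ := hKs
    set a2 : ι → ℝ := fun l => if l = j then x else a l with ha2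
    have ha2j : a2 j = x := by simp [ha2]
    have ha2o : ∀ l, l ≠ j → a2 l = a l := by intro l hl; simp [ha2, hl]
    have hjS2 : j ∈ S \ T' := Finset.mem_sdiff.mpr ⟨hjS, hjT'⟩
    have hVa2 : ∀ i, V F a2 b i (S \ T') =
        V F a b i S - (V F a b i T' + (F i j x - F i j (a j))) := by
      intro i
      have e1 : V F a b i S = V F a b i (S \ T') + V F a b i T' := by
        unfold V
        rw [Finset.sum_sdiff hT'S]
      have e2 : V F a b i (S \ T') - V F a2 b i (S \ T') = F i j x - F i j (a j) := by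
        unfold V
        rw [← Finset.sum_sub_distrib, Finset.sum_eq_single j]
        · rw [ha2j]; ring
        · intro l _ hl
          rw [ha2o l hl]; ring
        · intro h; exact absurd hjS2 h
      linarith
    have hA2c : (A.erase i0).card = N - 1 := by
      rw [Finset.card_erase_of_mem hi0, hA]
    have hS2c : (S \ T').card = S.card - T'.card := Finset.card_sdiff_of_subset hT'S
    have hT'cS : T'.card + 1 ≤ S.card := by
      rw [← Finset.card_insert_of_notMem hjT']
      exact Finset.card_le_card hinsS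
    have harith : ∀ i ∈ A.erase i0, ((N - 1 : ℕ) : ℝ) ≤ V F a2 b i (S \ T') ∧
        ((S \ T').card : ℝ) + ((N - 1 : ℕ) : ℝ) - 1 ≤ k i * V F a2 b i (S \ T') := by
      intro i hi
      have hiA := Finset.mem_of_mem_erase hi
      apply step_arith (r + 1) N 1 S.card (S \ T').card (k i) (V F a b i S) _ (θ i)
        (hk i hiA) hN (fun h => th_low k (r + 1) i (hk i hiA) h) (fun h => th_high k (r + 1) i h)
        (h1 i hiA) (h2 i hiA)
      · rw [hVa2]
        have := hGall i hiA
        push_cast
        linarith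
      · exact hr1
      · rw [hS2c]; omega
      · rw [hS2c]
        obtain ⟨N1, rfl⟩ := Nat.exists_eq_add_of_le hN
        have e1 : (r + 1 + 1) * (1 + N1) = (r + 1 + 1) * N1 + (r + 1 + 1) := by ring
        have e2 : 1 + N1 - 1 = N1 := by omega
        rw [e1] at hr2
        rw [e2]
        omega
    have hG2 := ih (N - 1) (by omega) (A.erase i0) hA2c (S \ T') a2
      (fun _ => Finset.card_pos.mpr ⟨j, hjS2⟩)
      (by
        intro l hl
        by_cases h : l = j
        · subst h; rw [ha2j]; exact hx2
        · rw [ha2o l h]; exact hab l (Finset.mem_sdiff.mp hl).1)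
      (fun i hi => hk i (Finset.mem_of_mem_erase hi))
      (fun i hi => (harith i hi).1) (fun i hi => (harith i hi).2)
    have honly : ∀ i ∈ A, i ∉ A.erase i0 → i = i0 := by
      intro i hi h
      by_contra hne
      exact h (Finset.mem_erase.mpr ⟨hne, hi⟩)
    refine glue F b k A (A.erase i0) S (S \ T') a a2 Finset.sdiff_subset ?_
      (fun _ => Ks) (fun _ => a) (fun _ => yy) ?_ ?_ ?_ hG2
    · intro l _
      by_cases h : l = j
      · subst h; rw [ha2j]; exact hx1
      · rw [ha2o l h]
    · intro i hi h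
      rw [honly i hi h]
      refine ⟨hKs1.trans hinsS, hKs2, ?_, hKs3⟩
      intro l hl
      exact ⟨le_refl _, (hay l (hKs1 hl)).1, (hay l (hKs1 hl)).2⟩
    · intro i hi h i' hi' h' hne
      exact absurd ((honly i hi h).trans (honly i' hi' h').symm) hne
    · intro i hi h l hl hl2
      have hlj : l = j := by
        rcases Finset.mem_insert.mp (hKs1 hl) with h | h
        · exact h
        · exact absurd h (Finset.mem_sdiff.mp hl2).2
      rw [hlj, hyyj, ha2j]
  · -- Case 2
    push Not at hcase
    have hrpos : 1 ≤ r := by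
      by_contra hr0
      have hr0' : r = 0 := by omega
      obtain ⟨i, hi, h⟩ := hcase ∅ (Finset.empty_subset _) (by simp [hr0'])
      have := hθ1 i hi
      simp only [V, Finset.sum_empty] at h
      linarith
    obtain ⟨G, hG1, hG2, hG3⟩ := groups r N S (by omega) (by omega)
    have hGS : ∀ l, G l ⊆ S := fun l => (hG1 l).1
    set Nb : Fin N → Finset α := fun l => A.filter (fun i => θ i < V F a b i (G l)) with hNb
    have hNbne : ∀ l, (Nb l).Nonempty := by
      intro l
      obtain ⟨T, hT, hTc⟩ := Finset.exists_subset_card_eq (hG1 l).2.1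
      obtain ⟨i, hi, h⟩ := hcase T (hT.trans (hGS l)) hTc
      exact ⟨i, Finset.mem_filter.mpr ⟨hi, h.trans_le (hVmono i T (G l) hT (hGS l))⟩⟩
    have hNbA : ∀ l, Nb l ⊆ A := fun l => Finset.filter_subset _ _
    obtain ⟨J, hJ, hJmin⟩ := Finset.exists_min_image
      ((univ : Finset (Finset (Fin N))).filter
        (fun J => J.Nonempty ∧ (J.biUnion Nb).card ≤ J.card)) (fun J => J.card) (by
        refine ⟨univ, Finset.mem_filter.mpr ⟨Finset.mem_univ _, ⟨⟨0, hN⟩, Finset.mem_univ _⟩, ?_⟩⟩
        calc ((univ : Finset (Fin N)).biUnion Nb).card ≤ A.card :=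
              Finset.card_le_card (Finset.biUnion_subset.mpr (fun l _ => hNbA l))
          _ = (univ : Finset (Fin N)).card := by simp [hA])
    rw [Finset.mem_filter] at hJ
    obtain ⟨_, hJne, hJle⟩ := hJ
    have hJprop : ∀ J' ⊆ J, J'.Nonempty → J' ≠ J → J'.card < (J'.biUnion Nb).card := by
      intro J' hJ' hne hne'
      by_contra hcon
      push Not at hcon
      have := hJmin J' (Finset.mem_filter.mpr ⟨Finset.mem_univ _, hne, hcon⟩)
      exact hne' (Finset.eq_of_subset_of_card_le hJ' this)
    have hJfull : J.card ≤ (J.biUnion Nb).card := by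
      obtain ⟨g, hg⟩ := hJne
      by_cases he : (J.erase g).Nonempty
      · have e1 := hJprop (J.erase g) (Finset.erase_subset _ _) he
          (fun h => by rw [← h] at hg; simp at hg)
        rw [Finset.card_erase_of_mem hg] at e1
        have e2 : ((J.erase g).biUnion Nb).card ≤ (J.biUnion Nb).card :=
          Finset.card_le_card (Finset.biUnion_subset_biUnion_of_subset_left _
            (Finset.erase_subset _ _))
        omega
      · rw [Finset.not_nonempty_iff_eq_empty] at he
        have e1 : J.card = 1 := by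
          have := Finset.card_erase_of_mem hg
          rw [he] at this
          have h3 : 0 < J.card := Finset.card_pos.mpr ⟨g, hg⟩
          simp at this
          omega
        have e2 : 0 < (J.biUnion Nb).card := by
          rw [Finset.card_pos]
          obtain ⟨i, hi⟩ := hNbne g
          exact ⟨i, Finset.mem_biUnion.mpr ⟨g, hg, hi⟩⟩
        omega
    have hHall : ∀ s : Finset J, s.card ≤ (s.biUnion (fun g : J => Nb g.1)).card := by
      intro s
      set J' := s.map (Function.Embedding.subtype _) with hJ'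
      have hc : J'.card = s.card := Finset.card_map _
      have hsub : J' ⊆ J := by
        intro z hz
        rw [hJ', Finset.mem_map] at hz
        obtain ⟨g, _, rfl⟩ := hz
        exact g.2
      have hb : s.biUnion (fun g : J => Nb g.1) = J'.biUnion Nb := by
        ext z
        simp only [Finset.mem_biUnion, hJ', Finset.mem_map]
        constructor
        · rintro ⟨g, hg, hz⟩
          exact ⟨g.1, ⟨g, hg, rfl⟩, hz⟩
        · rintro ⟨_, ⟨g, hg, rfl⟩, hz⟩
          exact ⟨g, hg, hz⟩
      rw [hb, ← hc]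
      by_cases he : J'.Nonempty
      · by_cases heq : J' = J
        · rw [heq]; exact hJfull
        · exact (hJprop J' hsub he heq).le
      · rw [Finset.not_nonempty_iff_eq_empty] at he
        rw [he]; simp
    obtain ⟨f, hf1, hf2⟩ := (Finset.all_card_le_biUnion_card_iff_exists_injective _).mp hHall
    set I : Finset α := (univ : Finset J).image f with hI
    have hIc : I.card = J.card := by
      rw [hI, Finset.card_image_of_injective _ hf1, Finset.card_univ, Fintype.card_coe]
    have hIsub : I ⊆ J.biUnion Nb := by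
      intro z hz
      rw [hI, Finset.mem_image] at hz
      obtain ⟨g, _, rfl⟩ := hz
      exact Finset.mem_biUnion.mpr ⟨g.1, g.2, hf2 g⟩
    have hIeq : I = J.biUnion Nb := Finset.eq_of_subset_of_card_le hIsub (by omega)
    have hIA : I ⊆ A := by
      rw [hIeq]; exact Finset.biUnion_subset.mpr (fun l _ => hNbA l)
    have hJN : J.card ≤ N := by
      have := Finset.card_le_card hIA
      omega
    have hJpos : 1 ≤ J.card := Finset.card_pos.mpr hJne
    have hBS : J.biUnion G ⊆ S := Finset.biUnion_subset.mpr (fun l _ => hGS l)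
    have hdisj : (J : Set (Fin N)).PairwiseDisjoint G := by
      intro l _ l' _ hne
      exact hG2 l l' hne
    have hBc : r * J.card ≤ (J.biUnion G).card := by
      rw [Finset.card_biUnion (fun l _ l' _ hne => hG2 l l' hne)]
      have := Finset.card_nsmul_le_sum J (fun l => (G l).card) r (fun l _ => (hG1 l).2.1)
      rw [smul_eq_mul] at this
      calc r * J.card = J.card * r := by ring
        _ ≤ _ := this
    have hS2c : (S \ J.biUnion G).card = S.card - (J.biUnion G).card :=
      Finset.card_sdiff_of_subset hBS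
    have hS2c' : (S \ J.biUnion G).card ≤ (r + 1) * (N - J.card) := by
      have e1 : S \ J.biUnion G ⊆ (univ \ J).biUnion G := by
        intro z hz
        rw [Finset.mem_sdiff] at hz
        obtain ⟨l, _, hl⟩ := Finset.mem_biUnion.mp (hG3 hz.1)
        refine Finset.mem_biUnion.mpr ⟨l, Finset.mem_sdiff.mpr ⟨Finset.mem_univ _, ?_⟩, hl⟩
        intro hlJ
        exact hz.2 (Finset.mem_biUnion.mpr ⟨l, hlJ, hl⟩)
      calc (S \ J.biUnion G).card ≤ ((univ \ J).biUnion G).card := Finset.card_le_card e1
        _ ≤ (univ \ J).card * (r + 1) := Finset.card_biUnion_le_card_mul _ _ _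
              (fun l _ => (hG1 l).2.2)
        _ = (r + 1) * (N - J.card) := by
              rw [Finset.card_sdiff_of_subset (Finset.subset_univ _), Finset.card_univ,
                Fintype.card_fin]; ring
    have hA2c : (A \ I).card = N - J.card := by
      rw [Finset.card_sdiff_of_subset hIA, hA, hIc]
    have hV2 : ∀ i ∈ A \ I, V F a b i S - (J.card : ℝ) * θ i ≤ V F a b i (S \ J.biUnion G) := by
      intro i hi
      rw [Finset.mem_sdiff] at hi
      have e1 : V F a b i S = V F a b i (S \ J.biUnion G) + V F a b i (J.biUnion G) := by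
        unfold V
        rw [Finset.sum_sdiff hBS]
      have e2 : V F a b i (J.biUnion G) = ∑ l ∈ J, V F a b i (G l) := by
        unfold V
        rw [Finset.sum_biUnion hdisj]
      have e3 : ∑ l ∈ J, V F a b i (G l) ≤ J.card * θ i := by
        have := Finset.sum_le_card_nsmul J (fun l => V F a b i (G l)) (θ i) (by
          intro l hl
          by_contra hcon
          push Not at hcon
          apply hi.2
          rw [hIeq]
          exact Finset.mem_biUnion.mpr ⟨l, hl, Finset.mem_filter.mpr ⟨hi.1, hcon⟩⟩)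
        rw [nsmul_eq_mul] at this
        exact this
      linarith
    have harith : ∀ i ∈ A \ I, ((N - J.card : ℕ) : ℝ) ≤ V F a b i (S \ J.biUnion G) ∧
        ((S \ J.biUnion G).card : ℝ) + ((N - J.card : ℕ) : ℝ) - 1 ≤
          k i * V F a b i (S \ J.biUnion G) := by
      intro i hi
      have hiA := (Finset.mem_sdiff.mp hi).1
      apply step_arith (r + 1) N J.card S.card (S \ J.biUnion G).card (k i) (V F a b i S) _ (θ i)
        (hk i hiA) hJN (fun h => th_low k (r + 1) i (hk i hiA) h)
        (fun h => th_high k (r + 1) i h) (h1 i hiA) (h2 i hiA) (hV2 i hi) hr1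
      · rw [hS2c]
        have e1 : (r + 1) * J.card = r * J.card + J.card := by ring
        have e2 : (J.biUnion G).card ≤ S.card := Finset.card_le_card hBS
        omega
      · have e1 : (r + 1 + 1) * (N - J.card) = (r + 1) * (N - J.card) + (N - J.card) := by ring
        omega
    have hG4 := ih (N - J.card) (by omega) (A \ I) hA2c (S \ J.biUnion G) a
      (by
        intro hpos
        have : ∃ l, l ∉ J := by
          by_contra hcon
          push Not at hcon
          have : J = univ := Finset.eq_univ_iff_forall.mpr hcon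
          rw [this] at hpos
          simp at hpos
        obtain ⟨l, hl⟩ := this
        have hGl : (G l).Nonempty := by
          rw [← Finset.card_pos]
          have := (hG1 l).2.1
          omega
        obtain ⟨z, hz⟩ := hGl
        rw [Finset.card_pos]
        refine ⟨z, Finset.mem_sdiff.mpr ⟨hGS l hz, ?_⟩⟩
        intro hzB
        obtain ⟨l', hl', hz'⟩ := Finset.mem_biUnion.mp hzB
        have hne : l ≠ l' := by rintro rfl; exact hl hl'
        exact Finset.disjoint_left.mp (hG2 l l' hne) hz hz')
      (fun l hl => hab l (Finset.mem_sdiff.mp hl).1)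
      (fun i hi => hk i (Finset.mem_sdiff.mp hi).1)
      (fun i hi => (harith i hi).1) (fun i hi => (harith i hi).2)
    -- sets of the matched agents
    have hKg : ∀ g : J, ∃ Kg ⊆ G g.1, Kg.card ≤ k (f g) ∧
        1 ≤ ∑ l ∈ Kg, (F (f g) l (b l) - F (f g) l (a l)) := by
      intro g
      have hfg := Finset.mem_filter.mp (hf2 g)
      have hval : θ (f g) < ∑ l ∈ G g.1, (F (f g) l (b l) - F (f g) l (a l)) := hfg.2
      have hkf := hk _ hfg.1
      by_cases hlow : k (f g) ≤ r + 1
      · apply best (fun l => F (f g) l (b l) - F (f g) l (a l)) (G g.1) (k (f g)) (r + 1)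
          hkf hlow (hG1 g.1).2.2
        · intro l hl
          have := hmono (f g) l (hab l (hGS g.1 hl))
          linarith
        · have e1 := th_low k (r + 1) (f g) hkf hlow
          rw [← e1]
          exact mul_le_mul_of_nonneg_left hval.le (Nat.cast_nonneg _)
      · refine ⟨G g.1, Subset.refl _, ?_, ?_⟩
        · have := (hG1 g.1).2.2
          omega
        · have := hθ1 _ hfg.1
          linarith
    choose Kg hKg1 hKg2 hKg3 using hKg
    set K : α → Finset ι := fun i => ((univ : Finset J).filter (fun g => f g = i)).biUnion Kg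
      with hK
    have hKf : ∀ g : J, K (f g) = Kg g := by
      intro g
      have : (univ : Finset J).filter (fun g' => f g' = f g) = {g} := by
        ext g'
        simp only [Finset.mem_filter, Finset.mem_univ, true_and, Finset.mem_singleton]
        exact hf1.eq_iff
      simp only [hK]
      rw [this, Finset.singleton_biUnion]
    have hout : ∀ i ∈ A, i ∉ A \ I → ∃ g : J, f g = i := by
      intro i hi h
      have hiI : i ∈ I := by
        by_contra hcon
        exact h (Finset.mem_sdiff.mpr ⟨hi, hcon⟩)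
      rw [hI, Finset.mem_image] at hiI
      obtain ⟨g, _, hg⟩ := hiI
      exact ⟨g, hg⟩
    refine glue F b k A (A \ I) S (S \ J.biUnion G) a a Finset.sdiff_subset
      (fun _ _ => le_refl _) K (fun _ => a) (fun _ => b) ?_ ?_ ?_ hG4
    · intro i hi h
      obtain ⟨g, rfl⟩ := hout i hi h
      rw [hKf]
      refine ⟨(hKg1 g).trans (hGS g.1), hKg2 g, ?_, hKg3 g⟩
      intro l hl
      exact ⟨le_refl _, hab l (hGS g.1 (hKg1 g hl)), le_refl _⟩
    · intro i hi h i' hi' h' hne l hl hl'
      exfalso
      obtain ⟨g, rfl⟩ := hout i hi h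
      obtain ⟨g', rfl⟩ := hout i' hi' h'
      rw [hKf] at hl hl'
      have hgg : g.1 ≠ g'.1 := by
        intro e
        exact hne (by rw [Subtype.ext e])
      exact Finset.disjoint_left.mp (hG2 g.1 g'.1 hgg) (hKg1 g hl) (hKg1 g' hl')
    · intro i hi h l hl hl2
      exfalso
      obtain ⟨g, rfl⟩ := hout i hi h
      rw [hKf] at hl
      exact (Finset.mem_sdiff.mp hl2).2 (Finset.mem_biUnion.mpr ⟨g.1, g.2, hKg1 g hl⟩)

end

end Pool.Agent.R76.Cake
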